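import Pool.Agent.W542.GBCNegMass

/-!
The positivity question for the Gauss-Bonnet-Chern mass (MP_c3d4b2_gt, Q1) has a negative answer:
there is a complete smooth Riemannian metric `g` on `ℝ^6`, asymptotically flat of order
`τ = 1 > (6 - 4) / 3`, with `L_2` integrable and `L_2 > 0` everywhere, whose Gauss-Bonnet-Chern
mass is `m_2 = -5/4 < 0`.

The metric is `g = δ + h(|x|²) Jx ⊗ Jx` with `J` the complex structure of `ℝ^6 = ℂ^3` and
`h(s) = 5 (1 + s)^{-3/2}` for `s ≥ 0`.
-/

namespace Pool.Agent.Results.MP_c3d4b2_gt.NegativeMass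

open Pool.Agent.H498R3.GB MeasureTheory

theorem result : ∃ g : MetricField 6,
    IsRiemannianOn g Set.univ ∧ IsCompleteMetric g ∧
    IsAsymptoticallyFlat g 1 ∧
    Integrable (fun x => L2 g x * volDensity g x) ∧
    (∀ x, 0 < L2 g x) ∧
    HasGBCMass g (-(5 / 4)) :=
  open Pool.Agent.W542.GBC in
  ⟨gN, gN_riem, gN_complete, gN_AF, L2_gN_integrable, L2_gN_pos, gN_mass⟩

end Pool.Agent.Results.MP_c3d4b2_gt.NegativeMass
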